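import Pool.Agent.Z15.ME.Main
import Pool.Agent.T2h8.R3.Stm

set_option autoImplicit false

/-!
# The field of invariants: self maps of degree 3
-/

namespace Pool.Agent.Z15.MG

open MvPolynomial Pool.Agent.Z15.ME

theorem main3 (hACT : S_ACT) (hRAT : Pool.Agent.T2h8.R3.S_RAT3) {K : Type} [Field K] [CharZero K] {N : ℕ} (hN : 2 ≤ N)
    (hev : Even N) :
    IsRational (fixedBy fun g : GP N K => extF (subst (2 + 1) g) (subst_injective hACT (2 + 1) g)) := by
  set M := FractionRing (MvPolynomial (Ix N 2) K)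
  let f : Ix N 2 → M := fun p => algebraMap (MvPolynomial (Ix N 2) K) M (X p)
  have hf : AlgebraicIndependent K f := by
    have h1 : AlgebraicIndependent K (X : Ix N 2 → MvPolynomial (Ix N 2) K) := algebraicIndependent_X (Ix N 2) K
    exact h1.map' (f := Algebra.algHom K (MvPolynomial (Ix N 2) K) M) (IsFractionRing.injective _ _)
  let φ : GP N K → M →ₐ[K] M := fun g => extF (subst (2 + 1) g) (subst_injective hACT (2 + 1) g)
  have hφ : Acts N (2 + 1) φ f := by
    intro g p
    change extF (subst (2 + 1) g) _ (algebraMap _ _ (X p)) = _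
    rw [extF_algebraMap, subst, aeval_X]
    obtain ⟨-, -, -, -, -, -, -, -, -, -, hmap⟩ := hACT (N + 1) (2 + 1) (MvPolynomial (Ix N 2) K)
    have h2 := congrFun (hmap M (algebraMap (MvPolynomial (Ix N 2) K) M) (g.1.1.map C) (g.1.2.map C) X) p
    refine h2.symm.trans ?_
    have h3 : ∀ A : Matrix (Fin (N + 1)) (Fin (N + 1)) K, (A.map (C : K → MvPolynomial (Ix N 2) K)).map
        (algebraMap (MvPolynomial (Ix N 2) K) M) = ext M A := by
      intro A
      ext1 i j
      simp only [Matrix.map_apply, Pool.Agent.Z15.ME.ext]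
      rw [IsScalarTower.algebraMap_apply K (MvPolynomial (Ix N 2) K) M]
      rfl
    rw [h3, h3]
  obtain ⟨q, x, hx, hq⟩ := hRAT N K M ⟨hN, hev, f, hf, adjoin_frac, φ, hφ⟩
  refine ⟨q, ⟨?_⟩⟩
  have h4 : fixedBy φ = IntermediateField.adjoin K (Set.range x) := by
    ext y
    rw [← hq y]
    rfl
  change fixedBy φ ≃ₐ[K] _
  rw [h4]
  exact hx.aevalEquivField.symm

end Pool.Agent.Z15.MG
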