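import Pool.Agent.Z15.ME.All
import Pool.Agent.Z15.MG.Main3
import Pool.Agent.T2h8.R3.T_AM
import Pool.Agent.T2h8.R3.T_EX
import Pool.Agent.T2h8.R3.T_FR
import Pool.Agent.T2h8.R3.T_GN
import Pool.Agent.T2h8.R3.T_HA
import Pool.Agent.T2h8.R3.T_HB
import Pool.Agent.T2h8.R3.T_INV
import Pool.Agent.T2h8.R3.T_KER
import Pool.Agent.T2h8.R3.T_LIN
import Pool.Agent.T2h8.R3.T_RAT
import Pool.Agent.T2h8.R3.T_RK
import Pool.Agent.T2h8.R3.T_RO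
import Pool.Agent.T2h8.R3.T_SO
import Pool.Agent.T2h8.R3.T_SUR
import Pool.Agent.T2h8.R3.T_SYM
import Pool.Agent.T2h8.R3.T_T3
import Pool.Agent.T2h8.R3.T_TDB
import Pool.Agent.T2h8.R3.T_UU

set_option autoImplicit false

namespace Pool.Agent.Z15.MG

open Pool.Agent.T2h8.R3

theorem qHB : S_HB := t_HB t_T3
theorem qAM : S_AM := t_AM t_T3 qHB
theorem qSYM : S_SYM := t_SYM t_T3
theorem qSUR : S_SUR := t_SUR t_T3 qSYM
theorem qEX : S_EX := t_EX qSUR qAM qHB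
theorem qGN : S_GN := t_GN qEX qAM qHB t_T3
theorem qFR : S_FR := t_FR qGN t_KER qAM
theorem qUU : S_UU := t_UU qFR qGN qAM qHB t_KER
theorem qRO : S_RO := t_RO Pool.Agent.Z15.ME.pACT qUU
theorem qINV : S_INV3 := t_INV3 Pool.Agent.Z15.ME.pACT Pool.Agent.Z15.ME.DEN.t_DEN qRO
theorem qTDB : S_TDB3 := t_TDB3 Pool.Agent.Z15.ME.pACT Pool.Agent.Z15.ME.pTRD qRO
theorem qRK : S_RK := t_RK qSUR t_T3
theorem qSO : S_SO := t_SO t_HA qRK t_LIN qUU qAM qHB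
theorem qRAT : S_RAT3 := t_RAT qSO qTDB qINV qUU

end Pool.Agent.Z15.MG
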